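import Mathlib
import Pool.Agent.Run7.h414.Partition

set_option autoImplicit false

namespace Pool.Agent.Results.MP_dffe52_co.LogarithmicConnectivity

open SimpleGraph Run7.h414

/-- Connectivity at least `1200 (k + 1) log₂ n` suffices: in a finite `f`-connected graph on `n`
vertices with `n ^ (1200 (k + 1)) ≤ 2 ^ f` which contains an odd cycle, some odd cycle has a
`k`-connected complement. -/
theorem result :
    ∀ (k f : ℕ) (V : Type) [Fintype V] (G : SimpleGraph V),
      Fintype.card V ^ (1200 * (k + 1)) ≤ 2 ^ f →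
      (f < Fintype.card V ∧
        ∀ S : Finset V, S.card < f → (G.induce ((↑S : Set V)ᶜ)).Connected) →
      (∃ (v : V) (p : G.Walk v v), p.IsCycle ∧ Odd p.length) →
      ∃ (v : V) (p : G.Walk v v), p.IsCycle ∧ Odd p.length ∧
        k < ({x : V | x ∉ p.support}).ncard ∧
        ∀ S : Finset V, S.card < k →
          (G.induce ({x : V | x ∉ p.support} \ (↑S : Set V))).Connected := by
  classical
  intro k f V _ G hpow ⟨hcard, hconn⟩ ⟨v₀, p, hp, hodd⟩
  have hKC : KC G f := kc_of_frozen hconn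
  have hnb := not_bip_of_walk p hodd
  set n := Fintype.card V with hn
  -- `n` is at least two
  have hn2 : 2 ≤ n := by
    by_contra hlt
    push Not at hlt
    have hsub : Subsingleton V := Fintype.card_le_one_iff_subsingleton.mp (by omega)
    apply hnb
    refine ⟨fun _ => true, ?_⟩
    intro u _ w _ huw
    exact absurd (Subsingleton.elim u w) huw.ne
  have hf1 : 1200 * (k + 1) ≤ f := by
    have h1 : 2 ^ (1200 * (k + 1)) ≤ 2 ^ f := (Nat.pow_le_pow_left hn2 _).trans hpow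
    exact (Nat.pow_le_pow_iff_right (by norm_num)).mp h1
  -- the numerical choices
  set q := f / 240 with hq
  set r := (f - (k + 1)) / 64 with hr
  have hq2 : n ^ (5 * (k + 1)) < 2 ^ (q + 1) := by
    have h1 : (n ^ (5 * (k + 1))) ^ 240 < (2 ^ (q + 1)) ^ 240 := by
      rw [← pow_mul, ← pow_mul]
      have e : 5 * (k + 1) * 240 = 1200 * (k + 1) := by ring
      rw [e]
      refine hpow.trans_lt ?_
      apply Nat.pow_lt_pow_right (by norm_num)
      omega
    exact lt_of_pow_lt_pow_left' 240 h1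
  have h5q : 5 * (q + 1) ≤ 2 * r := by omega
  have hnum : (((n : ℝ) + 1) ^ (k + 1) + 1) * (10 * (n : ℝ) ^ 2) < (4 / 3 : ℝ) ^ r := by
    have h1 : ((2 : ℝ) ^ (q + 1)) ^ 2 ≤ ((4 / 3 : ℝ) ^ r) ^ 2 := by
      calc ((2 : ℝ) ^ (q + 1)) ^ 2 = (4 : ℝ) ^ (q + 1) := by
            rw [← pow_mul, mul_comm, pow_mul]
            norm_num
        _ ≤ ((4 / 3 : ℝ) ^ 5) ^ (q + 1) := by
            apply pow_le_pow_left₀ (by norm_num)
            norm_num
        _ = (4 / 3 : ℝ) ^ (5 * (q + 1)) := by rw [← pow_mul]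
        _ ≤ (4 / 3 : ℝ) ^ (2 * r) := pow_le_pow_right₀ (by norm_num) h5q
        _ = ((4 / 3 : ℝ) ^ r) ^ 2 := by rw [← pow_mul, mul_comm]
    have h2 : (2 : ℝ) ^ (q + 1) ≤ (4 / 3 : ℝ) ^ r :=
      (pow_le_pow_iff_left₀ (by positivity) (by positivity) (by norm_num)).mp h1
    refine lt_of_lt_of_le ?_ h2
    have h3 : ((n : ℝ)) ^ (5 * (k + 1)) < (2 : ℝ) ^ (q + 1) := by exact_mod_cast hq2
    refine lt_of_le_of_lt ?_ h3
    have hnr : (1200 : ℝ) ≤ n := by
      have h4 : 1200 ≤ n := by omega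
      exact_mod_cast h4
    have h5 : (n : ℝ) + 1 ≤ (n : ℝ) ^ 2 := by nlinarith
    have h6 : ((n : ℝ) + 1) ^ (k + 1) ≤ (n : ℝ) ^ (2 * (k + 1)) := by
      rw [pow_mul]
      exact pow_le_pow_left₀ (by positivity) h5 _
    have h7 : (1 : ℝ) ≤ (n : ℝ) ^ (2 * (k + 1)) := one_le_pow₀ (by linarith)
    have h8 : (n : ℝ) ^ (5 * (k + 1)) = (n : ℝ) ^ (2 * (k + 1)) * (n : ℝ) ^ (3 * (k + 1)) := by
      rw [← pow_add]
      congr 1
      ring
    have h9 : (n : ℝ) ^ 3 ≤ (n : ℝ) ^ (3 * (k + 1)) :=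
      pow_le_pow_right₀ (by linarith) (by omega)
    rw [h8]
    calc (((n : ℝ) + 1) ^ (k + 1) + 1) * (10 * (n : ℝ) ^ 2)
        ≤ (2 * (n : ℝ) ^ (2 * (k + 1))) * (10 * (n : ℝ) ^ 2) := by
          apply mul_le_mul_of_nonneg_right _ (by positivity)
          linarith
      _ = (n : ℝ) ^ (2 * (k + 1)) * (20 * (n : ℝ) ^ 2) := by ring
      _ ≤ (n : ℝ) ^ (2 * (k + 1)) * (n : ℝ) ^ (3 * (k + 1)) := by
          apply mul_le_mul_of_nonneg_left _ (by positivity)
          refine le_trans ?_ h9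
          have : (n : ℝ) ^ 3 = n * (n : ℝ) ^ 2 := by ring
          rw [this]
          apply mul_le_mul_of_nonneg_right _ (by positivity)
          linarith
  obtain ⟨T, hS, hSd, hT⟩ := exists_partition G (g := f) (k := k + 1) (r := r) (by omega)
    (by omega) hKC hcard hnum
  obtain ⟨X, hX, hXc, hXS⟩ := finish G (k := k) hnb T hS hSd hT
  obtain ⟨w, c, hc, hcodd, hcs⟩ := hX.exists_walk
  have hset : {x : V | x ∉ c.support} = Xᶜ := by
    ext x
    simp only [Set.mem_ofPred_eq, Set.mem_compl_iff, hcs]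
  refine ⟨w, c, hc, hcodd, ?_, ?_⟩
  · rw [hset]
    exact hXc
  · intro S hSk
    rw [hset, ← cn_iff]
    exact hXS S hSk

end Pool.Agent.Results.MP_dffe52_co.LogarithmicConnectivity
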