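import Mathlib
import Pool.Agent.Run7.h414.Walks

set_option autoImplicit false

namespace Pool.Agent.Results.MP_dffe52_co.OddCycleTwoConnected

open SimpleGraph Run7.h414

/-- The least `f` such that every finite `f`-connected graph with an odd cycle has an odd cycle
whose removal leaves a `2`-connected graph is `5`. -/
theorem result :
    IsLeast {f : ℕ | ∀ (V : Type) [Fintype V] (G : SimpleGraph V),
      (f < Fintype.card V ∧
        ∀ S : Finset V, S.card < f → (G.induce ((↑S : Set V)ᶜ)).Connected) →
      (∃ (v : V) (p : G.Walk v v), p.IsCycle ∧ Odd p.length) →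
      ∃ (v : V) (p : G.Walk v v), p.IsCycle ∧ Odd p.length ∧
        2 < ({x : V | x ∉ p.support}).ncard ∧
        ∀ S : Finset V, S.card < 2 →
          (G.induce ({x : V | x ∉ p.support} \ (↑S : Set V))).Connected} 5 := by
  classical
  constructor
  · intro V _ G ⟨hcard, hconn⟩ ⟨v, p, hp, hodd⟩
    have hKC : KC G 5 := kc_of_frozen hconn
    have hcard' : 5 < Nat.card V := by rwa [Nat.card_eq_fintype_card]
    obtain ⟨X, hX, hR⟩ := main5 hKC hcard' (not_bip_of_walk p hodd)
    obtain ⟨w, q, hq, hqodd, hqs⟩ := hX.exists_walk
    have hset : {x : V | x ∉ q.support} = Xᶜ := by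
      ext x
      simp only [Set.mem_ofPred_eq, Set.mem_compl_iff, hqs]
    refine ⟨w, q, hq, hqodd, ?_, ?_⟩
    · rw [hset]
      exact hR.1
    · intro S hS
      rw [hset, ← cn_iff]
      have hS2 : S.card = 0 ∨ S.card = 1 := by omega
      rcases hS2 with h0 | h1
      · rw [Finset.card_eq_zero] at h0
        rw [h0]
        simpa using hR.2.1
      · obtain ⟨x, rfl⟩ := Finset.card_eq_one.mp h1
        rw [Finset.coe_singleton]
        by_cases hx : x ∈ Xᶜ
        · exact hR.2.2 x hx
        · rw [Set.sdiff_singleton_eq_self hx]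
          exact hR.2.1
  · intro f hf
    by_contra hlt
    push Not at hlt
    have hconn : ∀ S : Finset (Fin 5), S.card < f →
        ((⊤ : SimpleGraph (Fin 5)).induce ((↑S : Set (Fin 5))ᶜ)).Connected := by
      intro S hS
      rw [← cn_iff]
      have h1 : S ≠ Finset.univ := by
        intro h
        rw [h, Finset.card_univ, Fintype.card_fin] at hS
        omega
      refine ⟨?_, ?_⟩
      · by_contra hcon
        rw [Set.not_nonempty_iff_eq_empty, Set.compl_empty_iff] at hcon
        exact h1 (by exact_mod_cast hcon)
      · rintro U hU ⟨u, hu⟩ ⟨w, hw⟩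
        refine ⟨u, hu, w, hw, ?_⟩
        rw [top_adj]
        intro he
        exact hw.2 (he ▸ hu)
    obtain ⟨w, q, hq, hqodd, hqn, -⟩ := hf (Fin 5) ⊤
      ⟨by rw [Fintype.card_fin]; omega, hconn⟩
      ⟨0, Walk.cons (v := 1) (by simp) (Walk.cons (v := 2) (by simp)
        (Walk.cons (v := 0) (by simp) Walk.nil)), by
          rw [Walk.isCycle_def]
          refine ⟨?_, by simp, by simp⟩
          rw [Walk.isTrail_def]
          simp [Walk.edges_cons], by simp [Walk.length_cons]; decide⟩
    have h3 := hq.three_le_length
    have h4 : q.support.tail.Nodup := hq.support_nodup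
    have h5 : q.support.tail.length = q.length := by
      rw [List.length_tail, Walk.length_support]
      omega
    have h6 : q.support.tail.toFinset.card = q.length := by
      rw [List.toFinset_card_of_nodup h4, h5]
    have h7 : {x : Fin 5 | x ∉ q.support} ⊆ ((q.support.tail.toFinsetᶜ : Finset (Fin 5)) :
        Set (Fin 5)) := by
      intro x hx
      simp only [Finset.coe_compl, List.coe_toFinset, Set.mem_compl_iff, Set.mem_ofPred_eq]
      intro h8
      exact hx (List.mem_of_mem_tail h8)
    have h8 := Set.ncard_le_ncard h7 (Set.toFinite _)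
    rw [Set.ncard_coe_finset, Finset.card_compl, h6, Fintype.card_fin] at h8
    omega

end Pool.Agent.Results.MP_dffe52_co.OddCycleTwoConnected
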